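import Pool.Agent.H20.RCC.Stmts

/-!
Row AR of the board rcc.
-/

set_option autoImplicit false

namespace Pool.RCC

private theorem ar_append (x y : List ℕ) : ∀ c : ℕ,
    ad c (x ++ y) = ad c x ++ ad (co c x) y ∧ co c (x ++ y) = co (co c x) y := by
  induction x with
  | nil => intro c; exact ⟨rfl, rfl⟩
  | cons s x ih =>
    intro c
    obtain ⟨h1, h2⟩ := ih ((s + c) / 10)
    refine ⟨?_, ?_⟩
    · rw [List.cons_append, ad, h1, ad, co, List.cons_append]
    · rw [List.cons_append, co, h2, co]

private theorem ar_length (x : List ℕ) : ∀ c : ℕ, (ad c x).length = x.length := by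
  induction x with
  | nil => intro c; rfl
  | cons s x ih => intro c; rw [ad, List.length_cons, ih, List.length_cons]

private theorem ar_rep (s c : ℕ) (h : (s + c) / 10 = c) : ∀ n : ℕ,
    ad c (List.replicate n s) = List.replicate n ((s + c) % 10) ∧
      co c (List.replicate n s) = c := by
  intro n
  induction n with
  | zero => exact ⟨rfl, rfl⟩
  | succ n ih =>
    refine ⟨?_, ?_⟩
    · rw [List.replicate_succ, ad, h, ih.1, List.replicate_succ]
    · rw [List.replicate_succ, co, h, ih.2]

theorem AR_thm : ARStmt := by
  refine ⟨fun c x y => ar_append x y c, fun c x => ar_length x c, ?_, ?_⟩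
  · intro c n s hc hs
    have h : (s + (s + c) / 10) / 10 = (s + c) / 10 := by omega
    obtain ⟨h1, h2⟩ := ar_rep s ((s + c) / 10) h n
    refine ⟨?_, ?_⟩
    · rw [List.replicate_succ, ad, h1]
    · rw [List.replicate_succ, co, h2]
  · intro c x
    induction x generalizing c with
    | nil => intro hc _; exact hc
    | cons s x ih =>
      intro hc h
      rw [co]
      refine ih _ ?_ fun t ht => h t (List.mem_cons_of_mem _ ht)
      have := h s List.mem_cons_self
      omega

end Pool.RCC
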